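import Pool.Agent.Lib.MP_e1e800_lc.Line

/-!
# MP_e1e800_lc: contraction of inverted orbits
-/

namespace MPe1e800

/-- Multiply the first element. -/
def mulHead (v : V) : List V → List V
  | [] => [v]
  | y :: Y => v.mul y :: Y

/-- Sections of the word `x₀ a x₁ a ⋯`: `fsec false` starts in class 0, `fsec true` in class 1. -/
def fsec : Bool → List V → List V
  | _, [] => [V.e]
  | false, x :: X => mulHead x.ph (fsec true X)
  | true, x :: X => if x.om then V.e :: fsec false X else fsec false X

/-- Weight of a normal form. -/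
def wtX (X : List V) : ℕ := (X.map fun x => x.wt + 40).sum

theorem fsec_ne_nil (s : Bool) (X : List V) : ∃ y Y, fsec s X = y :: Y := by
  induction X generalizing s with
  | nil => cases s <;> exact ⟨V.e, [], rfl⟩
  | cons x X ih =>
    cases s
    · obtain ⟨y, Y, h⟩ := ih true
      exact ⟨x.ph.mul y, Y, by simp [fsec, h, mulHead]⟩
    · by_cases hx : x.om
      · exact ⟨V.e, fsec false X, by simp [fsec, hx]⟩
      · obtain ⟨y, Y, h⟩ := ih false
        exact ⟨y, Y, by simp [fsec, hx, h]⟩

theorem wt_mul (v w : V) : (v.mul w).wt ≤ v.wt + w.wt := by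
  cases v <;> cases w <;> simp [V.mul, V.wt]

theorem wtX_mulHead (v : V) (X : List V) (hX : ∃ y Y, X = y :: Y) :
    wtX (mulHead v X) ≤ v.wt + wtX X := by
  obtain ⟨y, Y, rfl⟩ := hX
  have := wt_mul v y
  simp only [mulHead, wtX, List.map_cons, List.sum_cons]
  omega

theorem wt_contr (x : V) : 85 * (x.ph.wt + if x.om then 40 else 0) ≤ 69 * (x.wt + 40) := by
  cases x <;> simp [V.ph, V.wt, V.om]

theorem wtX_sec (X : List V) :
    85 * (wtX (fsec false X) + wtX (fsec true X)) ≤ 69 * wtX X + 6800 := by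
  induction X with
  | nil => simp [fsec, wtX, V.wt]
  | cons x X ih =>
    have h1 : wtX (fsec false (x :: X)) ≤ x.ph.wt + wtX (fsec true X) := by
      rw [fsec]; exact wtX_mulHead _ _ (fsec_ne_nil _ _)
    have h2 : wtX (fsec true (x :: X)) = (if x.om then 40 else 0) + wtX (fsec false X) := by
      rw [fsec]
      split_ifs with h
      · simp [wtX, V.wt]
      · simp
    have h3 : wtX (x :: X) = (x.wt + 40) + wtX X := by simp [wtX]
    have h4 := wt_contr x
    rw [h3, h2]
    generalize (if x.om = true then 40 else 0) = z at *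
    omega

/-- A set of points is invariant under the four-group. -/
def VInv (Y : ℕ → Prop) : Prop := ∀ v x, Y x → Y (va v x)

theorem hitX_mulHead (Y : ℕ → Prop) (v y : V) (X : List V) (x : ℕ) :
    hitX Y (mulHead v (y :: X)) x ↔ hitX Y (y :: X) (va v x) := by
  simp only [mulHead, hitX, va_mul]

theorem hitX_sec (Y Y' : ℕ → Prop) (hY' : VInv Y')
    (h0 : ∀ j, Y (pos j 0) → Y' j) (h1 : ∀ j, Y (pos j 1) → Y' j) (X : List V) :
    (∀ j, hitX Y X (pos j 0) → hitX Y' (fsec false X) j) ∧
    (∀ j, hitX Y X (pos j 1) → hitX Y' (fsec true X) j) := by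
  induction X with
  | nil => exact ⟨fun j h => h.elim, fun j h => h.elim⟩
  | cons x X ih =>
    refine ⟨?_, ?_⟩
    · intro j hj
      rw [fsec]
      obtain ⟨y, Z, e⟩ := fsec_ne_nil true X
      have ih1 := ih.2 (va x.ph j)
      rw [e] at ih1 ⊢
      rw [hitX_mulHead]
      rcases hj with hj | hj
      · rw [va_pos0] at hj
        exact Or.inl (hY' _ _ (h0 _ hj))
      · rw [va_pos0, sw_pos0] at hj
        exact ih1 hj
    · intro j hj
      rw [fsec]
      obtain ⟨y, Z, e⟩ := fsec_ne_nil false X
      by_cases hx : x.om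
      · rw [if_pos hx]
        have ih1 := ih.1 (sw j)
        right
        rw [va_e]
        rcases hj with hj | hj
        · rw [va_pos1, if_pos hx] at hj
          rw [e]
          exact Or.inl (hY' _ _ (h1 _ hj))
        · rw [va_pos1, if_pos hx, sw_pos1] at hj
          exact ih1 hj
      · rw [if_neg hx]
        have ih1 := ih.1 j
        rcases hj with hj | hj
        · rw [va_pos1, if_neg hx] at hj
          rw [e]
          exact Or.inl (hY' _ _ (h1 _ hj))
        · rw [va_pos1, if_neg hx, sw_pos1] at hj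
          exact ih1 hj

theorem hitX_le (B : ℕ) (Y : ℕ → Prop) (hY : ∀ x, Y x → x ≤ B) (X : List V) (x : ℕ)
    (h : hitX Y X x) : x ≤ B + 2 * X.length := by
  induction X generalizing x with
  | nil => exact h.elim
  | cons v X ih =>
    have h1 := va_le v x
    have h2 := sw_le (va v x)
    simp only [List.length_cons]
    rcases h with h | h
    · have := hY _ h; omega
    · have := ih _ h; omega

theorem hitX_finite (B : ℕ) (Y : ℕ → Prop) (hY : ∀ x, Y x → x ≤ B) (X : List V) :
    {x | hitX Y X x}.Finite :=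
  (Set.finite_Iic (B + 2 * X.length)).subset fun x hx => hitX_le B Y hY X x hx

/-- Six consecutive points. -/
def I6 (p x : ℕ) : Prop := p ≤ x ∧ x ≤ p + 5

theorem I6_le (p x : ℕ) (h : I6 p x) : x ≤ p + 5 := h.2

theorem I6_ncard (p : ℕ) : {x | I6 p x}.ncard = 6 := by
  have : {x | I6 p x} = ((Finset.Icc p (p + 5) : Finset ℕ) : Set ℕ) := by
    ext x; simp [I6]
  rw [this, Set.ncard_coe_finset, Nat.card_Icc]; omega

theorem ncard_hitX_le (p : ℕ) (X : List V) : {x | hitX (I6 p) X x}.ncard ≤ 6 * X.length := by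
  induction X with
  | nil => simp [hitX]
  | cons v X ih =>
    have hsub : {x | hitX (I6 p) (v :: X) x} ⊆
        (va v '' {x | I6 p x}) ∪ ((fun x => va v (sw x)) '' {x | hitX (I6 p) X x}) := by
      intro x hx
      rcases hx with hx | hx
      · left; exact ⟨va v x, hx, va_va v x⟩
      · right; exact ⟨sw (va v x), hx, by simp only [sw_sw, va_va]⟩
    have hf1 : {x | I6 p x}.Finite := (Set.finite_Iic (p + 5)).subset fun x hx => hx.2
    have hf2 := hitX_finite (p + 5) (I6 p) (I6_le p) X
    have h1 := Set.ncard_le_ncard hsub ((hf1.image _).union (hf2.image _))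
    have h2 := Set.ncard_union_le (va v '' {x | I6 p x})
      ((fun x => va v (sw x)) '' {x | hitX (I6 p) X x})
    have h3 := Set.ncard_image_le (f := va v) hf1
    have h4 := Set.ncard_image_le (f := fun x => va v (sw x)) hf2
    rw [I6_ncard] at h3
    simp only [List.length_cons]
    omega

/-- The next interval. -/
def nxt (p : ℕ) : ℕ := p / 2 - 1

theorem ncard_hitX_sec (p : ℕ) (X : List V) :
    {x | hitX (I6 p) X x}.ncard ≤
      {x | hitX (I6 (nxt p)) (fsec false X) x}.ncard +
      {x | hitX (I6 (nxt p)) (fsec true X) x}.ncard := by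
  -- the four-group closure of the projection of `[p,p+5]`
  set J : ℕ → Prop := fun x => ∃ v j, x = va v j ∧ (I6 p (pos j 0) ∨ I6 p (pos j 1)) with hJ
  have hJinv : VInv J := by
    rintro v x ⟨w, j, rfl, h⟩
    exact ⟨w.mul v, j, va_mul w v j, h⟩
  have hJI : ∀ x, J x → I6 (nxt p) x := by
    rintro x ⟨v, j, rfl, h⟩
    have h1 := va_le v j
    unfold I6 nxt pos at *
    omega
  have hs := hitX_sec (I6 p) J hJinv
    (fun j hj => ⟨V.e, j, (va_e j).symm, Or.inl hj⟩)
    (fun j hj => ⟨V.e, j, (va_e j).symm, Or.inr hj⟩) X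
  have mono : ∀ (Z : List V) (x : ℕ), hitX J Z x → hitX (I6 (nxt p)) Z x := by
    intro Z
    induction Z with
    | nil => intro x h; exact h.elim
    | cons z Z ih =>
      intro x h
      rcases h with h | h
      · exact Or.inl (hJI _ h)
      · exact Or.inr (ih _ h)
  have hsub : {x | hitX (I6 p) X x} ⊆
      ((fun j => pos j 0) '' {j | hitX (I6 (nxt p)) (fsec false X) j}) ∪
      ((fun j => pos j 1) '' {j | hitX (I6 (nxt p)) (fsec true X) j}) := by
    intro x hx
    rcases exists_pos x with h | h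
    · left
      refine ⟨x / 2, ?_, h.symm⟩
      have hx' : hitX (I6 p) X (pos (x / 2) 0) := h ▸ hx
      exact mono _ _ (hs.1 _ hx')
    · right
      refine ⟨x / 2, ?_, h.symm⟩
      have hx' : hitX (I6 p) X (pos (x / 2) 1) := h ▸ hx
      exact mono _ _ (hs.2 _ hx')
  have hf1 := hitX_finite (nxt p + 5) (I6 (nxt p)) (I6_le _) (fsec false X)
  have hf2 := hitX_finite (nxt p + 5) (I6 (nxt p)) (I6_le _) (fsec true X)
  have h1 := Set.ncard_le_ncard hsub ((hf1.image _).union (hf2.image _))
  have h2 := Set.ncard_union_le ((fun j => pos j 0) '' {j | hitX (I6 (nxt p)) (fsec false X) j})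
    ((fun j => pos j 1) '' {j | hitX (I6 (nxt p)) (fsec true X) j})
  have h3 := Set.ncard_image_le (f := fun j => pos j 0) hf1
  have h4 := Set.ncard_image_le (f := fun j => pos j 1) hf2
  omega

theorem ncard_hitX_bound (k p : ℕ) (X : List V) :
    40 * 85 ^ k * {x | hitX (I6 p) X x}.ncard + 408 * 69 ^ k ≤
      6 * 69 ^ k * wtX X + 408 * 170 ^ k := by
  induction k generalizing p X with
  | zero =>
    have h1 := ncard_hitX_le p X
    have h2 : 40 * X.length ≤ wtX X := by
      induction X with
      | nil => simp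
      | cons x X ih =>
        have := ih (ncard_hitX_le p X)
        simp only [wtX, List.map_cons, List.sum_cons, List.length_cons] at *
        omega
    simp only [pow_zero, mul_one]
    omega
  | succ k ih =>
    have h0 := ih (nxt p) (fsec false X)
    have h1 := ih (nxt p) (fsec true X)
    have h2 := ncard_hitX_sec p X
    have h3 := wtX_sec X
    set N := {x | hitX (I6 p) X x}.ncard
    set N0 := {x | hitX (I6 (nxt p)) (fsec false X) x}.ncard
    set N1 := {x | hitX (I6 (nxt p)) (fsec true X) x}.ncard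
    set W := wtX X
    set W0 := wtX (fsec false X)
    set W1 := wtX (fsec true X)
    have e85 : (85 : ℕ) ^ (k + 1) = 85 * 85 ^ k := by ring
    have e69 : (69 : ℕ) ^ (k + 1) = 69 * 69 ^ k := by ring
    have e170 : (170 : ℕ) ^ (k + 1) = 170 * 170 ^ k := by ring
    rw [e85, e69, e170]
    set a := (85 : ℕ) ^ k
    set b := (69 : ℕ) ^ k
    set c := (170 : ℕ) ^ k
    have g1 : 40 * (85 * a) * N ≤ 85 * (40 * a * N0) + 85 * (40 * a * N1) := by
      calc 40 * (85 * a) * N ≤ 40 * (85 * a) * (N0 + N1) := Nat.mul_le_mul_left _ h2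
        _ = _ := by ring
    have g2 : 6 * b * (85 * (W0 + W1)) ≤ 6 * b * (69 * W + 6800) := Nat.mul_le_mul_left _ h3
    nlinarith [g1, g2, h0, h1]

/-- Normal form. -/
def nf : List Lt → List V
  | [] => [V.e]
  | Lt.a :: u => V.e :: nf u
  | Lt.v x :: u => mulHead x (nf u)

theorem nf_ne_nil (u : List Lt) : ∃ y Y, nf u = y :: Y := by
  induction u with
  | nil => exact ⟨V.e, [], rfl⟩
  | cons l u ih =>
    cases l with
    | a => exact ⟨V.e, nf u, rfl⟩
    | v x =>
      obtain ⟨y, Y, h⟩ := ih
      exact ⟨x.mul y, Y, by simp [nf, h, mulHead]⟩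

theorem wtX_nf (u : List Lt) : wtX (nf u) ≤ 45 * (u.length + 1) := by
  induction u with
  | nil => simp [nf, wtX, V.wt]
  | cons l u ih =>
    cases l with
    | a =>
      simp only [nf, wtX, List.map_cons, List.sum_cons, List.length_cons, V.wt] at *
      omega
    | v x =>
      have h1 := wtX_mulHead x (nf u) (nf_ne_nil u)
      have h2 : x.wt ≤ 45 := by cases x <;> simp [V.wt]
      simp only [nf, List.length_cons]
      omega

theorem hitU_nf (y : ℕ) (Y : ℕ → Prop) (hY : VInv Y) (hy : Y y) (u : List Lt) (x : ℕ)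
    (h : hitU y u x) : hitX Y (nf u) x := by
  induction u generalizing x with
  | nil =>
    left
    have hx : x = y := h
    rw [va_e, hx]; exact hy
  | cons l u ih =>
    cases l with
    | a =>
      rcases h with h | h
      · left; rw [va_e, h]; exact hy
      · right; rw [va_e]; exact ih _ h
    | v w =>
      obtain ⟨z, Z, e⟩ := nf_ne_nil u
      rw [nf, e, hitX_mulHead, ← e]
      rcases h with h | h
      · rw [e]; left
        exact hY _ _ (hY _ _ (h ▸ hy))
      · exact ih _ h

theorem hitU_I6 (u : List Lt) (y : ℕ) :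
    {x | hitU y u x} ⊆ {x | hitX (I6 (y - 1)) (nf u) x} := by
  intro x hx
  set Y : ℕ → Prop := fun x => ∃ v, x = va v y with hYdef
  have hinv : VInv Y := by
    rintro v x ⟨w, rfl⟩
    exact ⟨w.mul v, va_mul w v y⟩
  have hsub : ∀ x, Y x → I6 (y - 1) x := by
    rintro x ⟨v, rfl⟩
    have := va_le v y
    unfold I6; omega
  have mono : ∀ (Z : List V) (x : ℕ), hitX Y Z x → hitX (I6 (y - 1)) Z x := by
    intro Z
    induction Z with
    | nil => intro x h; exact h.elim
    | cons z Z ih =>
      intro x h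
      rcases h with h | h
      · exact Or.inl (hsub _ h)
      · exact Or.inr (ih _ h)
  exact mono _ _ (hitU_nf y Y hinv ⟨V.e, (va_e y).symm⟩ u x hx)

theorem hitU_finite (u : List Lt) (y : ℕ) : {x | hitU y u x}.Finite :=
  (hitX_finite (y - 1 + 5) (I6 (y - 1)) (I6_le _) (nf u)).subset (hitU_I6 u y)

theorem hitU_bound (k : ℕ) (u : List Lt) (y : ℕ) :
    40 * 85 ^ k * {x | hitU y u x}.ncard ≤
      6 * 69 ^ k * (45 * (u.length + 1)) + 408 * 170 ^ k := by
  have h1 := Set.ncard_le_ncard (hitU_I6 u y)
    (hitX_finite (y - 1 + 5) (I6 (y - 1)) (I6_le _) (nf u))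
  have h2 := ncard_hitX_bound k (y - 1) (nf u)
  have h3 := wtX_nf u
  calc 40 * 85 ^ k * {x | hitU y u x}.ncard
      ≤ 40 * 85 ^ k * {x | hitX (I6 (y - 1)) (nf u) x}.ncard := Nat.mul_le_mul_left _ h1
    _ ≤ 6 * 69 ^ k * wtX (nf u) + 408 * 170 ^ k := by omega
    _ ≤ _ := by
      have := Nat.mul_le_mul_left (6 * 69 ^ k) h3
      omega

end MPe1e800
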