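import Mathlib

/-!
# MP_e1e800_lc: definitions
-/

namespace MPe1e800

/-- One step of a partial automaton on an optional state (`none` = undefined). -/
def step {Q A : Type} (δ : Q → A → Option Q) (q : Option Q) (x : A) : Option Q :=
  q.bind fun p => δ p x

/-- `q · w` for a partial DFA `δ` (`none` = undefined). -/
def run {Q A : Type} (δ : Q → A → Option Q) (q : Q) (w : List A) : Option Q :=
  w.foldl (step δ) (some q)

/-- `w` is mortal for `δ`: `q · w` is undefined for every state `q`. -/
def Mortal {Q A : Type} (δ : Q → A → Option Q) (w : List A) : Prop :=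
  ∀ q : Q, run δ q w = none

/-- The length of a shortest mortal word (junk value `0` if there is none). -/
noncomputable def threshold {Q A : Type} (δ : Q → A → Option Q) : ℕ :=
  sInf {k : ℕ | ∃ w : List A, Mortal δ w ∧ w.length = k}

/-- `mt_d(n,m)`: the maximum mortality threshold over all partial DFAs with exactly `n` states
and `m` letters that have a mortal word. -/
noncomputable def mtd (n m : ℕ) : ℕ :=
  sSup {k : ℕ | ∃ δ : Fin n → Fin m → Option (Fin n),
    (∃ w : List (Fin m), Mortal δ w) ∧ threshold δ = k}

/-! ## The infinite line (Schreier graph of the first Grigorchuk group) -/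

/-- The four-group `{1, b, c, d}`. -/
inductive V
  | e | b | c | d
  deriving DecidableEq

namespace V

/-- multiplication -/
def mul : V → V → V
  | e, y => y
  | x, e => x
  | b, b => e | b, c => d | b, d => c
  | c, b => d | c, c => e | c, d => b
  | d, b => c | d, c => b | d, d => e

/-- The rotation `b ↦ c ↦ d ↦ b`. -/
def ph : V → V
  | e => e | b => c | c => d | d => b

/-- `b, c` act on the other half by `a`, `d` does not. -/
def om : V → Bool
  | e => false | b => true | c => true | d => false

/-- weights -/
def wt : V → ℕ
  | e => 0 | b => 45 | c => 29 | d => 16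

end V

/-- The letter `a`: swaps `2i` and `2i+1`. -/
def sw (x : ℕ) : ℕ := if x % 2 = 0 then x + 1 else x - 1

/-- The point over `j` in the class `s ∈ {0,1}`. -/
def pos (j s : ℕ) : ℕ := 2 * j + (s + j) % 2

/-- The action of the four-group on the line `ℕ`. -/
def va (v : V) (x : ℕ) : ℕ :=
  if h : x = 0 then 0
  else if (x + x / 2) % 2 = 1 then (if v.om then pos (sw (x / 2)) 1 else x)
  else pos (va v.ph (x / 2)) 0
termination_by x
decreasing_by exact Nat.div_lt_self (Nat.pos_of_ne_zero h) one_lt_two

/-- Letters of the line. -/
inductive Lt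
  | a
  | v (x : V)

/-- Action of a letter on the line. -/
def act : Lt → ℕ → ℕ
  | Lt.a, x => sw x
  | Lt.v y, x => va y x

/-- The path of `x` under the word `u` (read from left to right) visits `y`. -/
def hitU (y : ℕ) : List Lt → ℕ → Prop
  | [], x => x = y
  | l :: u, x => x = y ∨ hitU y u (act l x)

/-- The path of `x` under the word `x₀ a x₁ a ⋯ a x_m` (`x_i` in the four-group) is in `Y` just
after some `x_i`. -/
def hitX (Y : ℕ → Prop) : List V → ℕ → Prop
  | [], _ => False
  | v :: X, x => Y (va v x) ∨ hitX Y X (sw (va v x))

/-! ## The storage -/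

/-- Truncated action on `{0, …, M-1}`. -/
def actM (M : ℕ) (l : Lt) (x : ℕ) : ℕ := if act l x < M then act l x else x

/-- The storage `{0, …, M-1} × Bool`. -/
abbrev Stor (M : ℕ) := Fin M × Bool

/-- The letter seen at phase `φ` when `B` is read. -/
def phl (φ : Bool) : Lt := if φ then Lt.v V.c else Lt.v V.b

theorem actM_lt {M : ℕ} (l : Lt) {x : ℕ} (hx : x < M) : actM M l x < M := by
  unfold actM; split_ifs with h
  · exact h
  · exact hx

/-- `true` is the letter `A`, `false` is the letter `B`. -/
def stA (M : ℕ) (q : Stor M) : Stor M := (⟨actM M Lt.a q.1, actM_lt _ q.1.2⟩, q.2)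

def stB (M : ℕ) (q : Stor M) : Stor M := (⟨actM M (phl q.2) q.1, actM_lt _ q.1.2⟩, !q.2)

/-! ## The tail automaton over a storage -/

/-- The permutation path in the storage: `true` acts as `α`, `false` as `β`. -/
def sact {C : Type} (α β : C → C) (x : Bool) (c : C) : C := if x then α c else β c

def spath {C : Type} (α β : C → C) (c : C) (w : List Bool) : C := w.foldl (fun c x => sact α β x c) c

/-- The tail automaton: the storage `C`, the exit `c₀`, and tail states `0, …, K-1`; the private
word is `A^K B` (`L = K+1` letters). The tail state `i` stands for `c₀ A^{i+1}`. -/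
def tail {C : Type} [DecidableEq C] (α β : C → C) (c₀ : C) (K : ℕ) :
    (C ⊕ Fin K) → Bool → Option (C ⊕ Fin K)
  | Sum.inl c, true => if c = c₀ then (if h : 0 < K then some (Sum.inr ⟨0, h⟩) else some (Sum.inl (α c)))
      else some (Sum.inl (α c))
  | Sum.inl c, false => some (Sum.inl (β c))
  | Sum.inr i, true => if h : i.1 + 1 < K then some (Sum.inr ⟨i.1 + 1, h⟩)
      else some (Sum.inl (α^[i.1 + 2] c₀))
  | Sum.inr i, false => if i.1 + 1 < K then some (Sum.inl (β (α^[i.1 + 1] c₀))) else none

end MPe1e800
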