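import Pool.Agent.Lib.MP_e1e800_lc.Defs

/-!
# MP_e1e800_lc: transport to `Fin n`
-/

namespace MPe1e800

/-- Transport of a partial DFA along bijections of states and letters. -/
def trans {Q : Type} {n : ℕ} (e : Q ≃ Fin n) (f : Bool ≃ Fin 2) (δ : Q → Bool → Option Q) :
    Fin n → Fin 2 → Option (Fin n) :=
  fun q x => (δ (e.symm q) (f.symm x)).map e

theorem foldl_trans {Q : Type} {n : ℕ} (e : Q ≃ Fin n) (f : Bool ≃ Fin 2)
    (δ : Q → Bool → Option Q) (w : List (Fin 2)) (q : Option Q) :
    w.foldl (step (trans e f δ)) (q.map e) = ((w.map f.symm).foldl (step δ) q).map e := by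
  induction w generalizing q with
  | nil => rfl
  | cons x w ih =>
    simp only [List.foldl_cons, List.map_cons]
    rw [← ih]
    congr 1
    cases q with
    | none => rfl
    | some q => simp [step, trans]

theorem run_trans {Q : Type} {n : ℕ} (e : Q ≃ Fin n) (f : Bool ≃ Fin 2)
    (δ : Q → Bool → Option Q) (w : List (Fin 2)) (q : Q) :
    run (trans e f δ) (e q) w = (run δ q (w.map f.symm)).map e :=
  foldl_trans e f δ w (some q)

theorem mortal_trans {Q : Type} {n : ℕ} (e : Q ≃ Fin n) (f : Bool ≃ Fin 2)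
    (δ : Q → Bool → Option Q) (w : List (Fin 2)) :
    Mortal (trans e f δ) w ↔ Mortal δ (w.map f.symm) := by
  constructor
  · intro h q
    have := h (e q)
    rw [run_trans] at this
    simpa using this
  · intro h q
    have := run_trans e f δ w (e.symm q)
    rw [e.apply_symm_apply, h] at this
    simpa using this

theorem bddAbove_mtd (n m : ℕ) : BddAbove {k : ℕ | ∃ δ : Fin n → Fin m → Option (Fin n),
    (∃ w : List (Fin m), Mortal δ w) ∧ threshold δ = k} := by
  have h : {k : ℕ | ∃ δ : Fin n → Fin m → Option (Fin n),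
      (∃ w : List (Fin m), Mortal δ w) ∧ threshold δ = k} ⊆
      Set.range (fun δ : Fin n → Fin m → Option (Fin n) => threshold δ) := by
    rintro k ⟨δ, -, rfl⟩
    exact ⟨δ, rfl⟩
  exact ((Set.finite_range _).subset h).bddAbove

theorem le_mtd {Q : Type} [Fintype Q] (δ : Q → Bool → Option Q) (hm : ∃ w, Mortal δ w) (n : ℕ)
    (hn : Fintype.card Q = n) (t : ℕ) (ht : ∀ w, Mortal δ w → t ≤ w.length) : t ≤ mtd n 2 := by
  classical
  let e : Q ≃ Fin n := Fintype.equivFinOfCardEq hn
  let f : Bool ≃ Fin 2 := (finTwoEquiv).symm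
  obtain ⟨w0, hw0⟩ := hm
  have hmort : Mortal (trans e f δ) (w0.map f) := by
    rw [mortal_trans]
    simpa using hw0
  have h1 : t ≤ threshold (trans e f δ) := by
    unfold threshold
    have hne : {k : ℕ | ∃ w : List (Fin 2), Mortal (trans e f δ) w ∧ w.length = k}.Nonempty :=
      ⟨_, w0.map f, hmort, rfl⟩
    obtain ⟨w, hw, hl⟩ := Nat.sInf_mem hne
    rw [← hl]
    have := ht _ ((mortal_trans e f δ w).1 hw)
    simpa using this
  refine h1.trans (le_csSup (bddAbove_mtd n 2) ⟨trans e f δ, ⟨_, hmort⟩, rfl⟩)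

end MPe1e800
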