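import Pool.Agent.Lib.MP_e1e800_lc.TailM

/-!
# MP_e1e800_lc: lower bound for the mortal words of the tail automaton
-/

namespace MPe1e800

/-- Reduce every run of `true` modulo 2; `p` is the parity of the pending run. -/
def red : Bool → List Bool → List Bool
  | p, [] => if p then [true] else []
  | p, true :: v => red (!p) v
  | p, false :: v => (if p then [true] else []) ++ false :: red false v

/-- Number of `false` preceded by at least `K` letters `true` (`j` of them pending). -/
def cnt (K : ℕ) : ℕ → List Bool → ℕ
  | _, [] => 0
  | j, true :: w => cnt K (j + 1) w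
  | j, false :: w => (if K ≤ j then 1 else 0) + cnt K 0 w

/-- Some `false` preceded by at least `K` letters `true` is read in the virtual state `z`. -/
def dies {C : Type} (α β : C → C) (z : C) (K : ℕ) : ℕ → List Bool → C → Prop
  | _, [], _ => False
  | j, true :: w, c => dies α β z K (j + 1) w (α c)
  | j, false :: w, c => (K ≤ j ∧ c = z) ∨ dies α β z K 0 w (β c)

theorem length_red (K : ℕ) (hK : 0 < K) (w : List Bool) (j : ℕ) (p : Bool)
    (hp : j % 2 = if p = true then 1 else 0) :
    (red p w).length + cnt K j w * (K - 1) ≤ w.length + j := by
  induction w generalizing j p with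
  | nil =>
    cases p
    · simp [red, cnt]
    · simp only [if_true] at hp
      simp only [red, cnt, if_true, List.length_cons, List.length_nil]
      omega
  | cons x w ih =>
    cases x
    · have h := ih 0 false (by simp)
      have hpj : (if p = true then 1 else 0) ≤ j := by
        rw [← hp]; exact Nat.mod_le _ _
      have hp1 : (if p = true then 1 else 0) ≤ 1 := by split_ifs <;> omega
      have hlen : (red p (false :: w)).length =
          (if p = true then 1 else 0) + 1 + (red false w).length := by
        rw [red, List.length_append, List.length_cons]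
        split_ifs <;> simp <;> omega
      rw [hlen, cnt, Nat.add_mul]
      simp only [List.length_cons]
      by_cases hKj : K ≤ j
      · rw [if_pos hKj, one_mul]
        omega
      · rw [if_neg hKj, zero_mul]
        omega
    · rw [red, cnt, List.length_cons]
      have h := ih (j + 1) (!p) (by
        cases p
        · simp only [Bool.not_false, if_true]
          simp at hp
          omega
        · simp only [Bool.not_true]
          simp at hp
          simp
          omega)
      omega

theorem card_dies {C : Type} [Fintype C] [DecidableEq C] (α β : C → C)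
    (hα : Function.Injective α) (hβ : Function.Injective β) (z : C) (K : ℕ) (w : List Bool)
    (j : ℕ) : {c | dies α β z K j w c}.ncard ≤ cnt K j w := by
  induction w generalizing j with
  | nil => simp [dies, cnt]
  | cons x w ih =>
    cases x
    · rw [cnt]
      have hsub : {c | dies α β z K j (false :: w) c} ⊆
          {c | K ≤ j ∧ c = z} ∪ {c | dies α β z K 0 w (β c)} := by
        intro c hc
        rcases hc with hc | hc
        · exact Or.inl hc
        · exact Or.inr hc
      have h1 := Set.ncard_le_ncard hsub (Set.toFinite _)
      have h2 := Set.ncard_union_le {c | K ≤ j ∧ c = z} {c | dies α β z K 0 w (β c)}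
      have h3 : {c | dies α β z K 0 w (β c)}.ncard ≤ {c | dies α β z K 0 w c}.ncard :=
        Set.ncard_le_ncard_of_injOn β (fun c hc => hc) (hβ.injOn) (Set.toFinite _)
      have h4 := ih 0
      have h5 : {c | K ≤ j ∧ c = z}.ncard ≤ if K ≤ j then 1 else 0 := by
        split_ifs with h
        · have : {c | K ≤ j ∧ c = z} ⊆ {z} := by
            rintro c ⟨-, rfl⟩; rfl
          have := Set.ncard_le_ncard this (Set.finite_singleton z)
          simpa using this
        · have : {c | K ≤ j ∧ c = z} = ∅ := by
            ext c; simp [h]
          rw [this]; simp
      omega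
    · rw [cnt]
      have h3 : {c | dies α β z K j (true :: w) c}.ncard ≤ {c | dies α β z K (j + 1) w c}.ncard :=
        Set.ncard_le_ncard_of_injOn α (fun c hc => hc) (hα.injOn) (Set.toFinite _)
      exact h3.trans (ih (j + 1))

theorem hit_red {C : Type} (α β : C → C) (hα : ∀ c, α (α c) = c) (z : C) (K : ℕ)
    (w : List Bool) (j : ℕ) (p : Bool) (c : C)
    (h : dies α β z K j w (if p = true then α c else c)) :
    ∃ q, q <+: red p w ∧ spath α β c q = z := by
  induction w generalizing j p c with
  | nil => exact h.elim
  | cons x w ih =>
    cases x
    · rcases h with ⟨-, h⟩ | h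
      · refine ⟨if p then [true] else [], ?_, ?_⟩
        · rw [red]; exact List.prefix_append _ _
        · cases p
          · simpa [spath] using h
          · simpa [spath, sact] using h
      · obtain ⟨q, hq1, hq2⟩ := ih 0 false (β (if p = true then α c else c)) (by simpa using h)
        refine ⟨(if p then [true] else []) ++ false :: q, ?_, ?_⟩
        · rw [red]
          exact (List.prefix_append_right_inj _).2 ((List.prefix_cons_inj _).2 hq1)
        · cases p
          · simpa [spath, sact] using hq2
          · simpa [spath, sact] using hq2
    · rw [red]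
      apply ih (j + 1) (!p) c
      cases p
      · simpa [dies] using h
      · simpa [dies, hα] using h

/-- The virtual state. -/
def vir {C : Type} (α : C → C) (c₀ : C) {K : ℕ} : C ⊕ Fin K → C
  | Sum.inl c => c
  | Sum.inr i => α^[i.1 + 1] c₀

theorem dies_of_run {C : Type} [DecidableEq C] (α β : C → C) (c₀ : C) (K : ℕ) (hK : 0 < K)
    (w : List Bool) (j : ℕ) (q : C ⊕ Fin K) (hq : ∀ i, q = Sum.inr i → i.1 + 1 ≤ j)
    (h : run (tail α β c₀ K) q w = none) : dies α β (α^[K] c₀) K j w (vir α c₀ q) := by
  induction w generalizing j q with
  | nil => simp [run] at h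
  | cons x w ih =>
    rw [run_cons] at h
    cases q with
    | inl c =>
      cases x
      · right
        exact ih 0 (Sum.inl (β c)) (by simp) (by simpa [tail] using h)
      · by_cases hc : c = c₀
        · have h1 : run (tail α β c₀ K) (Sum.inr ⟨0, hK⟩) w = none := by
            simpa [tail, hc, hK] using h
          have := ih (j + 1) (Sum.inr ⟨0, hK⟩) (by
            intro i hi
            have := Sum.inr.inj hi
            rw [← this]; simp) h1
          rw [hc]
          exact this
        · exact ih (j + 1) (Sum.inl (α c)) (by simp) (by simpa [tail, hc] using h)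
    | inr i =>
      have hi := hq i rfl
      cases x
      · by_cases h1 : i.1 + 1 < K
        · right
          exact ih 0 (Sum.inl (β (α^[i.1 + 1] c₀))) (by simp) (by simpa [tail, h1] using h)
        · left
          have h2 := i.2
          have h3 : i.1 + 1 = K := by omega
          refine ⟨by omega, ?_⟩
          simp only [vir, h3]
      · by_cases h1 : i.1 + 1 < K
        · have h2 : run (tail α β c₀ K) (Sum.inr ⟨i.1 + 1, h1⟩) w = none := by
            simpa [tail, h1] using h
          have := ih (j + 1) (Sum.inr ⟨i.1 + 1, h1⟩) (by
            intro i' hi'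
            have := Sum.inr.inj hi'
            rw [← this]; simp only; omega) h2
          simp only [dies, vir] at this ⊢
          rwa [Function.iterate_succ_apply'] at this
        · have h2 : run (tail α β c₀ K) (Sum.inl (α^[i.1 + 2] c₀)) w = none := by
            simpa [tail, h1] using h
          have := ih (j + 1) (Sum.inl (α^[i.1 + 2] c₀)) (by simp) h2
          simp only [dies, vir] at this ⊢
          rwa [Function.iterate_succ_apply'] at this

theorem tail_lower {C : Type} [Fintype C] [DecidableEq C] (α β : C → C)
    (hα : ∀ c, α (α c) = c) (hβ : Function.Injective β) (c₀ : C) (K : ℕ) (hK : 0 < K)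
    (w : List Bool) (hw : Mortal (tail α β c₀ K) w) :
    ∃ u : List Bool, (∀ c, ∃ p, p <+: u ∧ spath α β c p = α^[K] c₀) ∧
      u.length + Fintype.card C * (K - 1) ≤ w.length := by
  have hαi : Function.Injective α := fun x y hxy => by rw [← hα x, hxy, hα]
  have hd : ∀ c : C, dies α β (α^[K] c₀) K 0 w c := fun c =>
    dies_of_run α β c₀ K hK w 0 (Sum.inl c) (by simp) (hw (Sum.inl c))
  refine ⟨red false w, fun c => hit_red α β hα _ K w 0 false c (by simpa using hd c), ?_⟩
  have h1 := card_dies α β hαi hβ (α^[K] c₀) K w 0
  have h2 : {c | dies α β (α^[K] c₀) K 0 w c} = Set.univ := by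
    ext c; simp [hd c]
  rw [h2, Set.ncard_univ, Nat.card_eq_fintype_card] at h1
  have h3 := length_red K hK w 0 false (by simp)
  have h4 := Nat.mul_le_mul_right (K - 1) h1
  omega

end MPe1e800
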