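import Pool.Agent.Lib.MP_e1e800_lc.Stor

/-!
# MP_e1e800_lc: the tail automaton has a mortal word
-/

namespace MPe1e800

theorem foldl_step_none {Q A : Type} (δ : Q → A → Option Q) (w : List A) :
    w.foldl (step δ) none = none := by
  induction w with
  | nil => rfl
  | cons x w ih => simpa [step] using ih

theorem foldl_step_eq {Q A : Type} (δ : Q → A → Option Q) (w : List A) (q : Option Q) :
    w.foldl (step δ) q = q.bind fun p => run δ p w := by
  cases q with
  | none => simpa using foldl_step_none δ w
  | some q => rfl

theorem run_append {Q A : Type} (δ : Q → A → Option Q) (q : Q) (v w : List A) :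
    run δ q (v ++ w) = (run δ q v).bind fun p => run δ p w := by
  unfold run
  rw [List.foldl_append, foldl_step_eq]
  rfl

theorem run_cons {Q A : Type} (δ : Q → A → Option Q) (q : Q) (x : A) (w : List A) :
    run δ q (x :: w) = (δ q x).bind fun p => run δ p w := by
  rw [show x :: w = [x] ++ w from rfl, run_append]
  rfl

theorem mortal_of_forall {Q A : Type} [Fintype Q] (δ : Q → A → Option Q)
    (h : ∀ q, ∃ w, run δ q w = none) : ∃ w, Mortal δ w := by
  classical
  have key : ∀ s : Finset Q, ∃ w, ∀ q ∈ s, run δ q w = none := by
    intro s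
    induction s using Finset.induction_on with
    | empty => exact ⟨[], by simp⟩
    | insert q s _ ih =>
      obtain ⟨w, hw⟩ := ih
      cases hq : run δ q w with
      | none =>
        refine ⟨w, fun p hp => ?_⟩
        rcases Finset.mem_insert.1 hp with rfl | hp
        · exact hq
        · exact hw p hp
      | some q' =>
        obtain ⟨v, hv⟩ := h q'
        refine ⟨w ++ v, fun p hp => ?_⟩
        rw [run_append]
        rcases Finset.mem_insert.1 hp with rfl | hp
        · rw [hq]; exact hv
        · rw [hw p hp]; rfl
  obtain ⟨w, hw⟩ := key Finset.univ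
  exact ⟨w, fun q => hw q (Finset.mem_univ q)⟩

theorem tail_kill_inr {C : Type} [DecidableEq C] (α β : C → C) (c₀ : C) (K : ℕ) (m : ℕ)
    (i : Fin K) (hi : i.1 + 1 + m = K) :
    run (tail α β c₀ K) (Sum.inr i) (List.replicate m true ++ [false]) = none := by
  induction m generalizing i with
  | zero =>
    rw [List.replicate_zero, List.nil_append, run_cons]
    have : ¬ (i.1 + 1 < K) := by omega
    simp [tail, this]
  | succ m ih =>
    rw [List.replicate_succ, List.cons_append, run_cons]
    have h1 : i.1 + 1 < K := by omega
    have := ih ⟨i.1 + 1, h1⟩ (by simp only; omega)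
    simp only [tail, h1, dite_true]
    exact this

theorem tail_mortal {C : Type} [Fintype C] [DecidableEq C] (α β : C → C) (c₀ : C) (K : ℕ)
    (hK : 0 < K) (h : ∀ c, ∃ w, spath α β c w = c₀) : ∃ w, Mortal (tail α β c₀ K) w := by
  apply mortal_of_forall
  have hc0 : ∃ w, run (tail α β c₀ K) (Sum.inl c₀) w = none := by
    refine ⟨true :: (List.replicate (K - 1) true ++ [false]), ?_⟩
    rw [run_cons]
    have := tail_kill_inr α β c₀ K (K - 1) ⟨0, hK⟩ (by simp only; omega)
    simp only [tail, if_true, hK, dite_true]
    exact this
  have key : ∀ (w : List Bool) (c : C), spath α β c w = c₀ →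
      ∃ v, run (tail α β c₀ K) (Sum.inl c) v = none := by
    intro w
    induction w with
    | nil =>
      intro c hc
      have : c = c₀ := hc
      rw [this]; exact hc0
    | cons x w ih =>
      intro c hc
      by_cases hcc : c = c₀
      · rw [hcc]; exact hc0
      · rw [spath_cons] at hc
        obtain ⟨v, hv⟩ := ih _ hc
        refine ⟨x :: v, ?_⟩
        rw [run_cons]
        cases x
        · simpa [tail, sact] using hv
        · simpa [tail, sact, hcc] using hv
  intro q
  cases q with
  | inl c =>
    obtain ⟨w, hw⟩ := h c
    exact key w c hw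
  | inr i =>
    exact ⟨_, tail_kill_inr α β c₀ K (K - 1 - i.1) i (by have := i.2; omega)⟩

end MPe1e800
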