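import Pool.Agent.Lib.MP_e1e800_lc.Stor
import Pool.Agent.Lib.MP_e1e800_lc.Mtd
import Pool.Agent.Lib.MP_e1e800_lc.TailM
import Pool.Agent.Lib.MP_e1e800_lc.Tail

/-!
# MP_e1e800_lc: final assembly
-/

namespace MPe1e800

theorem main_nat (M k K T : ℕ) (hM : 0 < M) (hK : 0 < K)
    (hT : ∀ L : ℕ, 40 * 85 ^ k * (2 * M) ≤ 4 * (6 * 69 ^ k * (45 * (L + 1)) + 408 * 170 ^ k) →
      T ≤ L) : T + 2 * M * (K - 1) ≤ mtd (2 * M + K) 2 := by
  classical
  set c₀ : Stor M := (⟨0, hM⟩, false) with hc0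
  refine le_mtd (tail (stA M) (stB M) c₀ K)
    (tail_mortal (stA M) (stB M) c₀ K hK (stor_reach M hM)) _ ?_ _ ?_
  · simp only [Fintype.card_sum, Fintype.card_prod, Fintype.card_fin, Fintype.card_bool]
    ring
  · intro w hw
    obtain ⟨u, hu, hl⟩ := tail_lower (stA M) (stB M) (stA_stA M) (stB_injective M) c₀ K hK w hw
    have h1 := stor_bound M k u _ hu
    have h2 := hT _ h1
    have h3 : Fintype.card (Stor M) = 2 * M := by
      simp only [Fintype.card_prod, Fintype.card_fin, Fintype.card_bool]; ring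
    rw [h3] at hl
    omega

theorem eta_pow (k : ℕ) : ((2 : ℝ) ^ k) ^ (0.3 : ℝ) ≤ (85 / 69 : ℝ) ^ k := by
  have h1 : (2 : ℝ) ^ (0.3 : ℝ) ≤ 85 / 69 := by
    have h2 : (2 : ℝ) ^ (0.3 : ℝ) = ((2 : ℝ) ^ (3 : ℕ)) ^ ((10 : ℝ)⁻¹) := by
      rw [← Real.rpow_natCast, ← Real.rpow_mul (by norm_num)]; norm_num
    have h3 : ((85 / 69 : ℝ) ^ (10 : ℕ)) ^ ((10 : ℝ)⁻¹) = 85 / 69 := by
      have := Real.pow_rpow_inv_natCast (x := (85 / 69 : ℝ)) (by norm_num) (n := 10) (by norm_num)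
      simpa using this
    rw [h2, ← h3]
    exact Real.rpow_le_rpow (by norm_num) (by norm_num) (by norm_num)
  calc ((2 : ℝ) ^ k) ^ (0.3 : ℝ) = ((2 : ℝ) ^ (0.3 : ℝ)) ^ k := by
        rw [← Real.rpow_natCast 2 k, ← Real.rpow_mul (by norm_num), mul_comm,
          Real.rpow_mul (by norm_num), Real.rpow_natCast]
    _ ≤ _ := pow_le_pow_left₀ (by positivity) h1 k

theorem real_bound (M k K : ℕ) (hM : 40 ≤ M) (hK : 0 < K) (hk1 : 40 * 2 ^ k ≤ M)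
    (hk2 : M < 80 * 2 ^ k) :
    (M : ℝ) ^ (1.3 : ℝ) / 2240 - 1 + 2 * M * (K - 1) ≤ (mtd (2 * M + K) 2 : ℝ) := by
  set X : ℝ := (85 / 69 : ℝ) ^ k * M / 28 with hX
  have hMpos : (0 : ℝ) < M := by
    have : (0 : ℕ) < M := by omega
    exact_mod_cast this
  have hXpos : 0 < X := by positivity
  have hT : ∀ L : ℕ, 40 * 85 ^ k * (2 * M) ≤ 4 * (6 * 69 ^ k * (45 * (L + 1)) + 408 * 170 ^ k) →
      ⌈X⌉₊ - 1 ≤ L := by
    intro L hL
    have hL' : (40 : ℝ) * 85 ^ k * (2 * M) ≤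
        4 * (6 * 69 ^ k * (45 * (L + 1)) + 408 * 170 ^ k) := by exact_mod_cast hL
    have h170 : (170 : ℝ) ^ k = 85 ^ k * 2 ^ k := by rw [← mul_pow]; norm_num
    rw [h170] at hL'
    have hk1' : (40 : ℝ) * 2 ^ k ≤ M := by exact_mod_cast hk1
    have h85 : (0 : ℝ) < 85 ^ k := by positivity
    have h69 : (0 : ℝ) < 69 ^ k := by positivity
    have hq : (85 / 69 : ℝ) ^ k = 85 ^ k / 69 ^ k := div_pow _ _ _
    have h1 : X ≤ L + 1 := by
      rw [hX, hq, div_mul_eq_mul_div, div_div, div_le_iff₀ (by positivity)]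
      nlinarith [mul_le_mul_of_nonneg_left hk1' h85.le]
    have h2 : ⌈X⌉₊ ≤ L + 1 := Nat.ceil_le.2 (by exact_mod_cast h1)
    omega
  have h1 := main_nat M k K (⌈X⌉₊ - 1) (by omega) hK hT
  have h2 : X - 1 ≤ ((⌈X⌉₊ - 1 : ℕ) : ℝ) := by
    have h3 : 1 ≤ ⌈X⌉₊ := Nat.one_le_iff_ne_zero.2 (by
      have := Nat.ceil_pos.2 hXpos; omega)
    rw [Nat.cast_sub h3]
    have := Nat.le_ceil X
    push_cast; linarith
  have h3 : (M : ℝ) ^ (1.3 : ℝ) / 2240 ≤ X := by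
    have h4 : (M : ℝ) ^ (1.3 : ℝ) = M * (M : ℝ) ^ (0.3 : ℝ) := by
      rw [show (1.3 : ℝ) = 1 + 0.3 by norm_num, Real.rpow_add hMpos, Real.rpow_one]
    have hk2' : (M : ℝ) ≤ 80 * 2 ^ k := by
      have : (M : ℝ) < 80 * 2 ^ k := by exact_mod_cast hk2
      exact this.le
    have h5 : (M : ℝ) ^ (0.3 : ℝ) ≤ 80 * (85 / 69 : ℝ) ^ k := by
      calc (M : ℝ) ^ (0.3 : ℝ) ≤ (80 * 2 ^ k : ℝ) ^ (0.3 : ℝ) :=
            Real.rpow_le_rpow hMpos.le hk2' (by norm_num)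
        _ = (80 : ℝ) ^ (0.3 : ℝ) * ((2 : ℝ) ^ k) ^ (0.3 : ℝ) :=
            Real.mul_rpow (by norm_num) (by positivity)
        _ ≤ 80 * (85 / 69 : ℝ) ^ k := by
            apply mul_le_mul _ (eta_pow k) (by positivity) (by norm_num)
            calc (80 : ℝ) ^ (0.3 : ℝ) ≤ (80 : ℝ) ^ (1 : ℝ) :=
                  Real.rpow_le_rpow_of_exponent_le (by norm_num) (by norm_num)
              _ = 80 := Real.rpow_one _
    rw [h4, hX]
    have := mul_le_mul_of_nonneg_left h5 hMpos.le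
    rw [div_le_div_iff₀ (by norm_num) (by norm_num)]
    nlinarith
  have h4 : (((⌈X⌉₊ - 1) + 2 * M * (K - 1) : ℕ) : ℝ) ≤ (mtd (2 * M + K) 2 : ℝ) := by
    exact_mod_cast h1
  have h5 : ((K - 1 : ℕ) : ℝ) = (K : ℝ) - 1 := by
    rw [Nat.cast_sub (by omega)]; norm_num
  rw [Nat.cast_add, Nat.cast_mul, Nat.cast_mul, h5] at h4
  push_cast at h4
  linarith

theorem final_bound : ∃ c : ℝ, 0 < c ∧ ∃ N : ℕ, ∀ n ≥ N,
    (n : ℝ) ^ 2 / 4 + c * (n : ℝ) ^ (1.3 : ℝ) ≤ mtd n 2 := by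
  set c1 : ℝ := 1 / (2240 * 64) with hc1
  have hc1pos : 0 < c1 := by positivity
  have ht := tendsto_rpow_atTop (show (0 : ℝ) < 0.3 by norm_num)
  have hev := (Filter.tendsto_atTop.1 ht (6 / c1))
  obtain ⟨R, hR⟩ := Filter.eventually_atTop.1 hev
  refine ⟨c1 / 2, by positivity, max 400 ⌈R⌉₊, ?_⟩
  intro n hn
  have hn1 : 400 ≤ n := le_trans (le_max_left _ _) hn
  have hn2 : R ≤ n := le_trans (Nat.le_ceil R) (by exact_mod_cast le_trans (le_max_right _ _) hn)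
  have hnR := hR n hn2
  set M := n / 4 with hM
  set k := Nat.log 2 (M / 40) with hk
  have hM40 : 40 ≤ M := by omega
  have hk1 : 40 * 2 ^ k ≤ M := by
    have : 2 ^ k ≤ M / 40 := Nat.pow_log_le_self 2 (by omega)
    omega
  have hk2 : M < 80 * 2 ^ k := by
    have : M / 40 < 2 ^ (k + 1) := Nat.lt_pow_succ_log_self (by norm_num) _
    rw [pow_succ] at this
    omega
  set K := n - 2 * M with hKdef
  have hK : 0 < K := by omega
  have hsum : 2 * M + K = n := by omega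
  have hb := real_bound M k K hM40 hK hk1 hk2
  rw [hsum] at hb
  have hKr : (K : ℝ) = n - 2 * M := by
    have : (2 * M + K : ℕ) = (n : ℝ) := by exact_mod_cast hsum
    push_cast at this
    linarith
  have hnpos : (0 : ℝ) < n := by
    have : 0 < n := by omega
    exact_mod_cast this
  have hn1' : (400 : ℝ) ≤ n := by exact_mod_cast hn1
  have hMlo : (n : ℝ) / 4 - 3 / 4 ≤ M := by
    have : n ≤ 4 * M + 3 := by omega
    have : (n : ℝ) ≤ 4 * M + 3 := by exact_mod_cast this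
    linarith
  have hMhi : (M : ℝ) ≤ n / 4 := by
    have : 4 * M ≤ n := by omega
    have : (4 : ℝ) * M ≤ n := by exact_mod_cast this
    linarith
  have hM8 : (n : ℝ) / 8 ≤ M := by linarith
  have h1 : (n : ℝ) ^ (1.3 : ℝ) / 64 ≤ (M : ℝ) ^ (1.3 : ℝ) := by
    calc (n : ℝ) ^ (1.3 : ℝ) / 64 ≤ (n : ℝ) ^ (1.3 : ℝ) / (8 : ℝ) ^ (1.3 : ℝ) := by
          apply div_le_div_of_nonneg_left (by positivity) (by positivity)
          calc (8 : ℝ) ^ (1.3 : ℝ) ≤ (8 : ℝ) ^ (2 : ℝ) :=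
                Real.rpow_le_rpow_of_exponent_le (by norm_num) (by norm_num)
            _ = 64 := by
                rw [show (2 : ℝ) = ((2 : ℕ) : ℝ) by norm_num, Real.rpow_natCast]; norm_num
      _ = ((n : ℝ) / 8) ^ (1.3 : ℝ) := (Real.div_rpow hnpos.le (by norm_num) _).symm
      _ ≤ _ := Real.rpow_le_rpow (by positivity) hM8 (by norm_num)
  have h2 : (n : ℝ) ^ (1.3 : ℝ) = n * (n : ℝ) ^ (0.3 : ℝ) := by
    rw [show (1.3 : ℝ) = 1 + 0.3 by norm_num, Real.rpow_add hnpos, Real.rpow_one]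
  have h3 : 6 * (n : ℝ) ≤ c1 * (n : ℝ) ^ (1.3 : ℝ) := by
    rw [h2]
    have h4 : 6 ≤ c1 * (n : ℝ) ^ (0.3 : ℝ) := by
      have := mul_le_mul_of_nonneg_left hnR hc1pos.le
      rwa [mul_div_cancel₀ _ hc1pos.ne'] at this
    nlinarith
  have h5 : (n : ℝ) ^ 2 / 4 - n / 2 - 1 ≤ 2 * M * (K - 1) := by
    rw [hKr]
    nlinarith
  have h6 : c1 * (n : ℝ) ^ (1.3 : ℝ) ≤ (M : ℝ) ^ (1.3 : ℝ) / 2240 := by
    rw [hc1]
    have := h1
    rw [one_div, inv_mul_eq_div]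
    rw [div_le_div_iff₀ (by norm_num) (by norm_num)]
    rw [div_le_iff₀ (by norm_num)] at this
    linarith
  have h7 : c1 / 2 * (n : ℝ) ^ (1.3 : ℝ) + 3 * n ≤ c1 * (n : ℝ) ^ (1.3 : ℝ) := by linarith
  linarith

end MPe1e800
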