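import Pool.Agent.Lib.MP_e1e800_lc.Defs

/-!
# MP_e1e800_lc: the infinite line
-/

namespace MPe1e800

theorem va_unfold (v : V) (x : ℕ) : va v x = if x = 0 then 0
  else if (x + x / 2) % 2 = 1 then (if v.om then pos (sw (x / 2)) 1 else x)
  else pos (va v.ph (x / 2)) 0 := by
  rw [va]
  split_ifs <;> rfl

theorem va_zero (v : V) : va v 0 = 0 := by
  rw [va_unfold]; simp

theorem pos_div (j s : ℕ) : pos j s / 2 = j := by
  unfold pos; omega

theorem va_pos0 (v : V) (j : ℕ) : va v (pos j 0) = pos (va v.ph j) 0 := by
  rcases Nat.eq_zero_or_pos j with h | h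
  · subst h
    have : pos 0 0 = 0 := rfl
    rw [this, va_zero, va_zero, this]
  · rw [va_unfold, pos_div]
    have h1 : pos j 0 ≠ 0 := by unfold pos; omega
    have h2 : ¬ ((pos j 0 + j) % 2 = 1) := by unfold pos; omega
    rw [if_neg h1, if_neg h2]

theorem va_pos1 (v : V) (j : ℕ) : va v (pos j 1) = pos (if v.om then sw j else j) 1 := by
  rw [va_unfold, pos_div]
  have h1 : pos j 1 ≠ 0 := by unfold pos; omega
  have h2 : ((pos j 1 + j) % 2 = 1) := by unfold pos; omega
  rw [if_neg h1, if_pos h2]
  split_ifs <;> rfl

theorem sw_pos0 (j : ℕ) : sw (pos j 0) = pos j 1 := by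
  unfold sw pos; split_ifs <;> omega

theorem sw_pos1 (j : ℕ) : sw (pos j 1) = pos j 0 := by
  unfold sw pos; split_ifs <;> omega

theorem exists_pos (x : ℕ) : x = pos (x / 2) 0 ∨ x = pos (x / 2) 1 := by
  unfold pos; omega

theorem sw_sw (x : ℕ) : sw (sw x) = x := by
  unfold sw; split_ifs <;> omega

theorem sw_le (x : ℕ) : sw x ≤ x + 1 ∧ x ≤ sw x + 1 := by
  unfold sw; split_ifs <;> omega

theorem va_e (x : ℕ) : va V.e x = x := by
  induction x using Nat.strong_induction_on with
  | _ x ih =>
    rcases Nat.eq_zero_or_pos x with h | h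
    · subst h; exact va_zero _
    · rcases exists_pos x with h0 | h1
      · rw [h0, va_pos0]
        have : va V.e.ph (x / 2) = x / 2 := ih _ (Nat.div_lt_self h one_lt_two)
        rw [this]
      · rw [h1, va_pos1]; rfl

theorem V.ph_mul (v w : V) : (v.mul w).ph = v.ph.mul w.ph := by
  cases v <;> cases w <;> rfl

theorem V.om_mul (v w : V) : (v.mul w).om = xor v.om w.om := by
  cases v <;> cases w <;> rfl

theorem V.mul_self (v : V) : v.mul v = V.e := by cases v <;> rfl

theorem V.mul_comm' (v w : V) : v.mul w = w.mul v := by cases v <;> cases w <;> rfl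

theorem V.mul_assoc' (u v w : V) : (u.mul v).mul w = u.mul (v.mul w) := by
  cases u <;> cases v <;> cases w <;> rfl

theorem va_mul (v w : V) (x : ℕ) : va w (va v x) = va (v.mul w) x := by
  induction x using Nat.strong_induction_on generalizing v w with
  | _ x ih =>
    rcases Nat.eq_zero_or_pos x with h | h
    · subst h; simp only [va_zero]
    · rcases exists_pos x with h0 | h1
      · rw [h0, va_pos0, va_pos0, va_pos0, V.ph_mul, ih _ (Nat.div_lt_self h one_lt_two)]
      · rw [h1, va_pos1, va_pos1, va_pos1, V.om_mul]
        cases v.om <;> cases w.om <;> simp [sw_sw]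

theorem va_va (v : V) (x : ℕ) : va v (va v x) = x := by
  rw [va_mul, V.mul_self, va_e]

theorem va_cases (w : V) (y : ℕ) : va w y = y ∨ (y % 2 = 1 ∧ va w y = y + 1) ∨
    (y % 2 = 0 ∧ va w y + 1 = y) := by
  induction y using Nat.strong_induction_on generalizing w with
  | _ y ihy =>
    rcases Nat.eq_zero_or_pos y with g | g
    · subst g; left; exact va_zero _
    · rcases exists_pos y with g0 | g1
      · have e2 : va w y = pos (va w.ph (y / 2)) 0 := by
          conv_lhs => rw [g0, va_pos0]
        rw [e2]
        have g0' : y = 2 * (y / 2) + (0 + y / 2) % 2 := g0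
        have := ihy (y / 2) (Nat.div_lt_self g one_lt_two) w.ph
        unfold pos
        rcases this with t | ⟨t1, t2⟩ | ⟨t1, t2⟩
        · rw [t]; left; omega
        · rw [t2]; right; left; constructor <;> omega
        · right; right
          generalize va w.ph (y / 2) = z at t2
          constructor <;> omega
      · have e2 : va w y = pos (if w.om then sw (y / 2) else (y / 2)) 1 := by
          conv_lhs => rw [g1, va_pos1]
        rw [e2]
        have g1' : y = 2 * (y / 2) + (1 + y / 2) % 2 := g1
        unfold pos sw
        split_ifs <;> omega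

theorem va_le (v : V) (x : ℕ) : va v x ≤ x + 1 ∧ x ≤ va v x + 1 := by
  rcases va_cases v x with h | h | h <;> omega

theorem va_down (x : ℕ) (hx : 0 < x) (he : x % 2 = 0) :
    va V.b x = x - 1 ∨ va V.c x = x - 1 := by
  -- all three of b, c, d: at least two of them move x
  have key : ∀ y : ℕ, 0 < y → y % 2 = 0 →
      (va V.b y ≠ y ∨ va V.c y ≠ y) ∧ (va V.c y ≠ y ∨ va V.d y ≠ y) ∧
        (va V.b y ≠ y ∨ va V.d y ≠ y) := by
    intro y
    induction y using Nat.strong_induction_on with
    | _ y ih =>
      intro hy he
      rcases exists_pos y with g0 | g1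
      · have g0' : y = 2 * (y / 2) + (0 + y / 2) % 2 := g0
        have hpos : 0 < y / 2 := by omega
        have hev : (y / 2) % 2 = 0 := by omega
        obtain ⟨i1, i2, i3⟩ := ih (y / 2) (Nat.div_lt_self hy one_lt_two) hpos hev
        have e2 : ∀ w : V, va w y = pos (va w.ph (y / 2)) 0 := by
          intro w
          conv_lhs => rw [g0, va_pos0]
        have inj : ∀ w : V, va w.ph (y / 2) ≠ y / 2 → va w y ≠ y := by
          intro w hw hc
          rw [e2] at hc
          apply hw
          have := congrArg (· / 2) hc
          simpa [pos_div] using this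
        refine ⟨?_, ?_, ?_⟩
        · rcases i2 with t | t
          · left; exact inj V.b t
          · right; exact inj V.c t
        · rcases i3 with t | t
          · right; exact inj V.d t
          · left; exact inj V.c t
        · rcases i1 with t | t
          · right; exact inj V.d t
          · left; exact inj V.b t
      · have e2 : ∀ w : V, va w y = pos (if w.om then sw (y / 2) else (y / 2)) 1 := by
          intro w
          conv_lhs => rw [g1, va_pos1]
        have inj : ∀ w : V, w.om = true → va w y ≠ y := by
          intro w hw hc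
          rw [e2, if_pos hw] at hc
          have h3 := congrArg (· / 2) hc
          simp only [pos_div] at h3
          unfold sw at h3
          split_ifs at h3 <;> omega
        exact ⟨Or.inl (inj V.b rfl), Or.inl (inj V.c rfl), Or.inl (inj V.b rfl)⟩
  rcases (key x hx he).1 with h | h
  · left
    rcases va_cases V.b x with h1 | h1 | h1 <;> omega
  · right
    rcases va_cases V.c x with h1 | h1 | h1 <;> omega

end MPe1e800
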