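import Pool.Agent.Lib.MP_e1e800_lc.Line
import Pool.Agent.Lib.MP_e1e800_lc.Contr

/-!
# MP_e1e800_lc: module STOR
-/

namespace MPe1e800


theorem act_act (l : Lt) (x : ℕ) : act l (act l x) = x := by
  cases l with
  | a => exact sw_sw x
  | v y => exact va_va y x

theorem act_le (l : Lt) (x : ℕ) : act l x ≤ x + 1 ∧ x ≤ act l x + 1 := by
  cases l with
  | a => exact sw_le x
  | v y => exact va_le y x

theorem actM_actM (M : ℕ) (l : Lt) (x : ℕ) (hx : x < M) : actM M l (actM M l x) = x := by
  unfold actM
  by_cases h : act l x < M
  · simp only [h, if_true, act_act, hx]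
  · simp only [h, if_false]

theorem stA_stA (M : ℕ) (q : Stor M) : stA M (stA M q) = q := by
  obtain ⟨⟨x, hx⟩, φ⟩ := q
  simp only [stA, actM_actM M Lt.a x hx]

theorem stB_injective (M : ℕ) : Function.Injective (stB M) := by
  rintro ⟨⟨x, hx⟩, φ⟩ ⟨⟨y, hy⟩, ψ⟩ h
  simp only [stB, Prod.mk.injEq, Fin.mk.injEq] at h
  obtain ⟨h1, h2⟩ := h
  have h3 : φ = ψ := by simpa using h2
  subst h3
  have h4 : x = y := by
    rw [← actM_actM M (phl φ) x hx, ← actM_actM M (phl φ) y hy, h1]
  subst h4
  rfl

theorem spath_nil {C : Type} (α β : C → C) (c : C) : spath α β c [] = c := rfl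

theorem spath_cons {C : Type} (α β : C → C) (c : C) (x : Bool) (w : List Bool) :
    spath α β c (x :: w) = spath α β (sact α β x c) w := rfl

theorem spath_append {C : Type} (α β : C → C) (c : C) (v w : List Bool) :
    spath α β c (v ++ w) = spath α β (spath α β c v) w := by
  simp [spath, List.foldl_append]

theorem stB_mk (M x : ℕ) (hx : x < M) (φ : Bool) :
    stB M (⟨x, hx⟩, φ) = (⟨actM M (phl φ) x, actM_lt _ hx⟩, !φ) := rfl

theorem stA_mk (M x : ℕ) (hx : x < M) (φ : Bool) :
    stA M (⟨x, hx⟩, φ) = (⟨actM M Lt.a x, actM_lt _ hx⟩, φ) := rfl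

/-- from `(x, φ)` with `x` even the phase can be flipped, unless `B` moves down -/
theorem stor_flip (M x : ℕ) (hx : x < M) (he : x % 2 = 0) (φ : Bool)
    (h : act (phl φ) x ≠ x - 1) :
    ∃ w : List Bool, spath (stA M) (stB M) (⟨x, hx⟩, φ) w = (⟨x, hx⟩, !φ) := by
  have h1 := act_le (phl φ) x
  have h2 : act (phl φ) x = x ∨ act (phl φ) x = x + 1 := by omega
  rcases h2 with h2 | h2
  · refine ⟨[false], ?_⟩
    rw [spath_cons, spath_nil]
    have : actM M (phl φ) x = x := by unfold actM; rw [h2]; simp
    simp only [sact, stB_mk, this, Bool.false_eq_true, if_false]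
  · by_cases h3 : x + 1 < M
    · refine ⟨[false, true], ?_⟩
      rw [spath_cons, spath_cons, spath_nil]
      have h4 : actM M (phl φ) x = x + 1 := by unfold actM; rw [h2, if_pos h3]
      have h5 : actM M Lt.a (x + 1) = x := by
        have : act Lt.a (x + 1) = x := by
          simp only [act, sw]
          rw [if_neg (by omega)]
          omega
        unfold actM; rw [this, if_pos hx]
      simp only [sact, stB_mk, stA_mk, h4, h5, Bool.false_eq_true, if_false, if_true]
    · refine ⟨[false], ?_⟩
      rw [spath_cons, spath_nil]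
      have : actM M (phl φ) x = x := by unfold actM; rw [h2, if_neg h3]
      simp only [sact, stB_mk, this, Bool.false_eq_true, if_false]

theorem stor_reach (M : ℕ) (hM : 0 < M) (q : Stor M) :
    ∃ w : List Bool, spath (stA M) (stB M) q w = (⟨0, hM⟩, false) := by
  obtain ⟨⟨x, hx⟩, φ⟩ := q
  induction x using Nat.strong_induction_on generalizing φ with
  | _ x ih =>
    rcases Nat.eq_zero_or_pos x with h0 | h0
    · subst h0
      cases φ with
      | false => exact ⟨[], rfl⟩
      | true =>
        refine ⟨[false], ?_⟩
        rw [spath_cons, spath_nil]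
        have : actM M (phl true) 0 = 0 := by
          have : act (phl true) 0 = 0 := va_zero _
          unfold actM; rw [this, if_pos hM]
        simp only [sact, stB_mk, this, Bool.false_eq_true, if_false, Bool.not_true]
    · by_cases he : x % 2 = 0
      · -- a step down with `B`
        have key : ∀ ψ : Bool, act (phl ψ) x = x - 1 →
            ∃ w : List Bool, spath (stA M) (stB M) (⟨x, hx⟩, ψ) w = (⟨0, hM⟩, false) := by
          intro ψ hψ
          obtain ⟨w, hw⟩ := ih (x - 1) (by omega) (!ψ) (by omega)
          refine ⟨false :: w, ?_⟩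
          rw [spath_cons]
          have h4 : actM M (phl ψ) x = x - 1 := by unfold actM; rw [hψ, if_pos (by omega)]
          simp only [sact, stB_mk, h4, Bool.false_eq_true, if_false]
          exact hw
        by_cases h1 : act (phl φ) x = x - 1
        · exact key φ h1
        · obtain ⟨w, hw⟩ := stor_flip M x hx he φ h1
          have h2 : act (phl (!φ)) x = x - 1 := by
            have h3 := va_down x h0 he
            cases φ with
            | false =>
              rcases h3 with h3 | h3
              · exact absurd h3 h1
              · exact h3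
            | true =>
              rcases h3 with h3 | h3
              · exact h3
              · exact absurd h3 h1
          obtain ⟨w', hw'⟩ := key (!φ) h2
          exact ⟨w ++ w', by rw [spath_append, hw, hw']⟩
      · obtain ⟨w, hw⟩ := ih (x - 1) (by omega) φ (by omega)
        refine ⟨true :: w, ?_⟩
        rw [spath_cons]
        have h4 : actM M Lt.a x = x - 1 := by
          have : act Lt.a x = x - 1 := by
            simp only [act, sw]
            rw [if_neg he]
          unfold actM; rw [this, if_pos (by omega)]
        simp only [sact, stA_mk, h4, if_true]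
        exact hw

/-- The letters of the line seen by a particle which starts at phase `φ`. -/
def lts : Bool → List Bool → List Lt
  | _, [] => []
  | φ, true :: u => Lt.a :: lts φ u
  | φ, false :: u => phl φ :: lts (!φ) u

theorem length_lts (φ : Bool) (u : List Bool) : (lts φ u).length = u.length := by
  induction u generalizing φ with
  | nil => rfl
  | cons b u ih => cases b <;> simp [lts, ih]

theorem stor_hit (M : ℕ) (c : Stor M) (u : List Bool) : ∀ q : Stor M,
    (∃ p, p <+: u ∧ spath (stA M) (stB M) q p = c) →
      hitU c.1 (lts q.2 u) q.1 ∨ hitU (M - 1) (lts q.2 u) q.1 := by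
  induction u with
  | nil =>
    rintro q ⟨p, hp, hq⟩
    have : p = [] := List.prefix_nil.mp hp
    subst this
    rw [spath_nil] at hq
    subst hq
    left
    simp [lts, hitU]
  | cons b u ih =>
    rintro ⟨⟨x, hx⟩, φ⟩ ⟨p, hp, hq⟩
    cases p with
    | nil =>
      rw [spath_nil] at hq
      subst hq
      left
      cases b <;> simp [lts, hitU]
    | cons b' p =>
      obtain ⟨hb, hp'⟩ := List.cons_prefix_cons.mp hp
      subst hb
      rw [spath_cons] at hq
      have h1 := ih _ ⟨p, hp', hq⟩
      have key : ∀ (l : Lt) (v : List Lt),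
          (hitU c.1 v (actM M l x) ∨ hitU (M - 1) v (actM M l x)) →
          hitU c.1 (l :: v) x ∨ hitU (M - 1) (l :: v) x := by
        intro l v h
        by_cases h2 : act l x < M
        · have h3 : actM M l x = act l x := by unfold actM; rw [if_pos h2]
          rw [h3] at h
          rcases h with h | h
          · exact Or.inl (Or.inr h)
          · exact Or.inr (Or.inr h)
        · have h3 := act_le l x
          have h4 : x = M - 1 := by omega
          exact Or.inr (Or.inl h4)
      cases b' with
      | true => exact key Lt.a _ h1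
      | false => exact key (phl φ) _ h1

theorem stor_bound (M k : ℕ) (u : List Bool) (c : Stor M)
    (h : ∀ q : Stor M, ∃ p, p <+: u ∧ spath (stA M) (stB M) q p = c) :
    40 * 85 ^ k * (2 * M) ≤ 4 * (6 * 69 ^ k * (45 * (u.length + 1)) + 408 * 170 ^ k) := by
  have h1 := hitU_bound k (lts false u) c.1
  have h2 := hitU_bound k (lts false u) (M - 1)
  rw [length_lts] at h1 h2
  have hfin1 := hitU_finite (lts false u) c.1
  have hfin2 := hitU_finite (lts false u) (M - 1)
  have h3 : M ≤ {x | hitU c.1 (lts false u) x}.ncard + {x | hitU (M - 1) (lts false u) x}.ncard := by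
    calc M = (Set.Iio M : Set ℕ).ncard := by simp
      _ ≤ ({x | hitU c.1 (lts false u) x} ∪ {x | hitU (M - 1) (lts false u) x}).ncard := by
          apply Set.ncard_le_ncard _ (hfin1.union hfin2)
          intro x hx
          exact stor_hit M c u (⟨x, hx⟩, false) (h _)
      _ ≤ _ := Set.ncard_union_le _ _
  calc 40 * 85 ^ k * (2 * M) = 2 * (40 * 85 ^ k * M) := by ring
    _ ≤ 2 * (40 * 85 ^ k * ({x | hitU c.1 (lts false u) x}.ncard +
          {x | hitU (M - 1) (lts false u) x}.ncard)) := by gcongr
    _ = 2 * (40 * 85 ^ k * {x | hitU c.1 (lts false u) x}.ncard +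
          40 * 85 ^ k * {x | hitU (M - 1) (lts false u) x}.ncard) := by ring
    _ ≤ 2 * ((6 * 69 ^ k * (45 * (u.length + 1)) + 408 * 170 ^ k) +
          (6 * 69 ^ k * (45 * (u.length + 1)) + 408 * 170 ^ k)) := by gcongr
    _ = _ := by ring

end MPe1e800
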